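import Pool.Agent.H433R3.Sep24

/-!
# The separated bump theorem for Calderon-Zygmund operators at `p = 2`

For Young functions `Φ₁, Φ₂` with `∫^∞ dx / Φᵢ(x) < ∞` and weights `w, σ` on `ℝ^d` with
`sup_Q ‖w‖_{L^{Φ₁}(Q)} ⟨σ⟩_Q < ∞` and `sup_Q ⟨w⟩_Q ‖σ‖_{L^{Φ₂}(Q)} < ∞`, the operator `T(· w)` is bounded
from `L²(w)` to `L²(σ)` for every Calderon-Zygmund operator `T`.

Outline of the proof. The bounded case reduces, by pointwise domination with sparse families in a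
shifted dyadic grid, to positive dyadic operators; for these a testing theorem is proved directly, and
the testing conditions are deduced from the bumps by a stopping construction on the distribution of the
weights. The case of general `w f` follows from the weak type `(1,1)` bound for `T`.
-/

set_option autoImplicit false

namespace Pool.Agent.Results.MP_93f72d_an.SeparatedBump

open MeasureTheory Filter Topology
open scoped ENNReal NNReal

/-- Young functions: continuous, convex, nondecreasing on `[0, ∞)`, with `Φ 0 = 0` and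
`Φ t / t → ∞` as `t → ∞`. -/
structure IsYoung (Φ : ℝ≥0 → ℝ≥0) : Prop where
  cont : Continuous Φ
  conv : ConvexOn ℝ≥0 Set.univ Φ
  mono : Monotone Φ
  zero : Φ 0 = 0
  superlin : Tendsto (fun t : ℝ≥0 => Φ t / t) atTop atTop

/-- `∫_c^∞ dx / Φ(x) < ∞` for some `c > 0`. -/
def IntegralCondition (Φ : ℝ≥0 → ℝ≥0) : Prop :=
  ∃ c : ℝ≥0, 0 < c ∧ ∫⁻ x in Set.Ioi (c : ℝ), ((Φ x.toNNReal : ℝ≥0∞))⁻¹ < ∞

/-- Weights on `ℝ^d`: nonnegative and locally integrable. -/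
def IsWeight {d : ℕ} (w : (Fin d → ℝ) → ℝ≥0) : Prop :=
  LocallyIntegrable (fun x => (w x : ℝ)) volume

/-- The cube in `ℝ^d` with lower corner `a` and side length `l`, sides parallel to the axes. -/
def cube {d : ℕ} (a : Fin d → ℝ) (l : ℝ) : Set (Fin d → ℝ) := {x | ∀ i, a i ≤ x i ∧ x i < a i + l}

/-- The average of a nonnegative function over a set, with respect to Lebesgue measure. -/
noncomputable def avg {d : ℕ} (u : (Fin d → ℝ) → ℝ≥0) (Q : Set (Fin d → ℝ)) : ℝ≥0∞ :=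
  (volume Q)⁻¹ * ∫⁻ x in Q, (u x : ℝ≥0∞)

/-- The normalised Luxemburg norm `‖u‖_{L^Φ(Q)}` of a nonnegative function (`∞` if there is no
admissible `l`). -/
noncomputable def lux {d : ℕ} (Φ : ℝ≥0 → ℝ≥0) (u : (Fin d → ℝ) → ℝ≥0) (Q : Set (Fin d → ℝ)) :
    ℝ≥0∞ :=
  ⨅ (l : ℝ≥0) (_ : 0 < l ∧ avg (fun x => Φ (u x / l)) Q ≤ 1), (l : ℝ≥0∞)

/-- Euclidean length in `ℝ^d`. -/
noncomputable def len {d : ℕ} (x : Fin d → ℝ) : ℝ := Real.sqrt (∑ i, x i ^ 2)

section ops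

variable {𝕜 : Type*} [RCLike 𝕜] {d : ℕ}

/-- `T` is a bounded linear operator on `L²(ℝ^d)`, given by its action on square integrable
functions, up to null sets. -/
structure IsL2Op (T : ((Fin d → ℝ) → 𝕜) → ((Fin d → ℝ) → 𝕜)) : Prop where
  mem : ∀ f, MemLp f 2 volume → MemLp (T f) 2 volume
  add : ∀ f g, MemLp f 2 volume → MemLp g 2 volume →
    T (fun x => f x + g x) =ᵐ[volume] fun x => T f x + T g x
  smul : ∀ (c : 𝕜) (f : (Fin d → ℝ) → 𝕜), MemLp f 2 volume →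
    T (fun x => c * f x) =ᵐ[volume] fun x => c * T f x
  bound : ∃ A : ℝ≥0, ∀ f, MemLp f 2 volume → eLpNorm (T f) 2 volume ≤ A * eLpNorm f 2 volume

/-- `T` is a Calderon-Zygmund operator with kernel `K`. The representation formula is only asked for
bounded `f` with compact support. -/
structure IsCZO (T : ((Fin d → ℝ) → 𝕜) → ((Fin d → ℝ) → 𝕜))
    (K : (Fin d → ℝ) → (Fin d → ℝ) → 𝕜) : Prop where
  l2 : IsL2Op T
  rep : ∀ f : (Fin d → ℝ) → 𝕜, MemLp f 2 volume → (∃ B : ℝ, ∀ x, ‖f x‖ ≤ B) →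
    HasCompactSupport f → ∀ᵐ x, x ∉ tsupport f → T f x = ∫ y, K x y * f y
  size : ∃ C : ℝ, ∀ x y, x ≠ y → ‖K x y‖ ≤ C / len (x - y) ^ d
  reg : ∃ C α : ℝ, 0 < α ∧ α ≤ 1 ∧ ∀ x x' y, x ≠ y → len (x - x') ≤ len (x - y) / 2 →
    ‖K x y - K x' y‖ + ‖K y x - K y x'‖ ≤ C * len (x - x') ^ α / len (x - y) ^ ((d : ℝ) + α)

/-- `g` is the value at the integrable function `h` of the extension of `T` by continuity from
`L¹ ∩ L²` to `L¹`: whenever `F n ∈ L¹ ∩ L²` and `F n → h` in `L¹`, then `T (F n) → g` in measure. -/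
def IsValue (T : ((Fin d → ℝ) → 𝕜) → ((Fin d → ℝ) → 𝕜)) (h g : (Fin d → ℝ) → 𝕜) : Prop :=
  AEStronglyMeasurable g volume ∧
  ∀ F : ℕ → (Fin d → ℝ) → 𝕜, (∀ n, MemLp (F n) 2 volume) → (∀ n, Integrable (F n) volume) →
    Tendsto (fun n => ∫⁻ x, ‖F n x - h x‖ₑ) atTop (𝓝 0) →
    TendstoInMeasure volume (fun n => T (F n)) atTop g

/-- The norm of `f` in `L²(w)`. -/
noncomputable def wnorm (w : (Fin d → ℝ) → ℝ≥0) (f : (Fin d → ℝ) → 𝕜) : ℝ≥0∞ :=
  eLpNorm f 2 (volume.withDensity fun x => (w x : ℝ≥0∞))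

end ops

section aux

open Pool.Agent.H433R3

variable {𝕜 : Type*} [RCLike 𝕜] {d : ℕ}
variable {T : ((Fin d → ℝ) → 𝕜) → ((Fin d → ℝ) → 𝕜)}
variable {K : (Fin d → ℝ) → (Fin d → ℝ) → 𝕜}

lemma IsYoung.toSep {Φ : ℝ≥0 → ℝ≥0} (h : IsYoung Φ) : Sep.IsYoung Φ :=
  ⟨h.cont, h.conv, h.mono, h.zero, h.superlin⟩

lemma IsCZO.toSep (h : IsCZO T K) :
    ∃ T' : Lp 𝕜 2 (volume : Measure (Fin d → ℝ)) →L[𝕜] Lp 𝕜 2 (volume : Measure (Fin d → ℝ)),
      Sep.IsCZO T' K ∧ ∀ f, MemLp f 2 volume → Sep.TT T' f =ᵐ[volume] T f := by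
  obtain ⟨T', hT'⟩ := Sep.exists_clm h.l2.mem h.l2.add h.l2.smul h.l2.bound
  refine ⟨T', ⟨?_, h.size, h.reg⟩, ?_⟩
  · intro f hf hB hc
    filter_upwards [hT' f hf, h.rep f hf hB hc] with x hx hx' hxs
    rw [hx, hx' hxs]
  · intro f hf
    rw [Sep.TT_eq hf]
    exact hT' f hf

/-- For `h ∈ L¹ ∩ L²` the value of the extension is `T h`. -/
theorem IsValue.eq_of_memLp {h g : (Fin d → ℝ) → 𝕜} (hg : IsValue T h g) (h2 : MemLp h 2 volume)
    (h1 : Integrable h volume) : T h =ᵐ[volume] g := by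
  have e1 := hg.2 (fun _ => h) (fun _ => h2) (fun _ => h1) (by simp)
  have e2 : TendstoInMeasure volume (fun (_ : ℕ) => T h) atTop (T h) := by
    intro ε hε
    have : {x : Fin d → ℝ | ε ≤ edist (T h x) (T h x)} = ∅ := by
      ext x
      simp only [edist_self, Set.mem_empty_iff_false, iff_false]
      intro hx
      have hx' : ε ≤ 0 := hx
      exact absurd hx' (not_le.2 hε)
    simp only [this, measure_empty]
    exact tendsto_const_nhds
  exact tendstoInMeasure_ae_unique e2 e1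

lemma lux_congr {Φ : ℝ≥0 → ℝ≥0} {u v : (Fin d → ℝ) → ℝ≥0} (huv : u =ᵐ[volume] v)
    (Q : Set (Fin d → ℝ)) : Sep.lux volume Φ v Q = lux Φ u Q := by
  unfold Sep.lux lux avg
  have : ∀ l : ℝ≥0, ∫⁻ x in Q, (Φ (v x / l) : ℝ≥0∞) = ∫⁻ x in Q, (Φ (u x / l) : ℝ≥0∞) := by
    intro l
    apply lintegral_congr_ae
    filter_upwards [ae_restrict_of_ae huv] with x hx
    rw [hx]
  simp only [this]

lemma wm_congr {u v : (Fin d → ℝ) → ℝ≥0} (huv : u =ᵐ[volume] v) :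
    Sep.wm volume v = volume.withDensity (fun x => (u x : ℝ≥0∞)) := by
  unfold Sep.wm
  apply withDensity_congr_ae
  filter_upwards [huv] with x hx
  rw [hx]

lemma cube_meas (a : Fin d → ℝ) (l : ℝ) : MeasurableSet (cube a l) := by
  have : cube a l = Set.pi Set.univ (fun i => Set.Ico (a i) (a i + l)) := by
    ext x
    simp only [cube, Set.mem_univ_pi, Set.mem_Ico, Set.mem_ofPred_eq]
  rw [this]
  exact MeasurableSet.univ_pi (fun i => measurableSet_Ico)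

lemma lin_fin {u : (Fin d → ℝ) → ℝ≥0} (hu : IsWeight u)
    {A : Set (Fin d → ℝ)} (hA : IsCompact A) : ∫⁻ x in A, (u x : ℝ≥0∞) < ∞ := by
  have h1 := (LocallyIntegrable.integrableOn_isCompact hu hA).2
  have h2 : ∫⁻ x in A, ‖(u x : ℝ)‖ₑ < ∞ := h1
  refine lt_of_le_of_lt (le_of_eq ?_) h2
  apply lintegral_congr
  intro x
  rw [← ofReal_norm, Real.norm_of_nonneg (u x).coe_nonneg, ENNReal.ofReal_coe_nnreal]

lemma wd_fin {u : (Fin d → ℝ) → ℝ≥0} (hu : IsWeight u)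
    (a : Fin d → ℝ) (l : ℝ) : ∫⁻ x in cube a l, (u x : ℝ≥0∞) < ∞ := by
  refine lt_of_le_of_lt (lintegral_mono_set ?_) (lin_fin hu (isCompact_Icc
    (a := a) (b := fun i => a i + l)))
  intro x hx
  have hx' : ∀ i, a i ≤ x i ∧ x i < a i + l := hx
  exact ⟨fun i => (hx' i).1, fun i => (hx' i).2.le⟩

lemma sq_eLp {μ : Measure (Fin d → ℝ)} (f : (Fin d → ℝ) → 𝕜) :
    eLpNorm f 2 μ ^ 2 = ∫⁻ x, ‖f x‖ₑ ^ 2 ∂μ := by
  have := eLpNorm_nnreal_pow_eq_lintegral (f := f) (μ := μ) (p := 2) (by norm_num)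
  have e : ((2:ℝ≥0):ℝ≥0∞) = 2 := by norm_num
  rw [e] at this
  have e2 : (((2:ℝ≥0):ℝ)) = ((2:ℕ):ℝ) := by norm_num
  rw [e2] at this
  simp only [ENNReal.rpow_natCast] at this
  exact this

end aux

open Pool.Agent.H433R3 in
/-- **The separated bump conjecture at `p = 2`.** -/
theorem result {d : ℕ} (hd : 0 < d) {𝕜 : Type*} [RCLike 𝕜] {Φ₁ Φ₂ : ℝ≥0 → ℝ≥0}
    (hΦ₁ : IsYoung Φ₁) (hΦ₂ : IsYoung Φ₂)
    (hB₁ : IntegralCondition Φ₁) (hB₂ : IntegralCondition Φ₂)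
    (T : ((Fin d → ℝ) → 𝕜) → ((Fin d → ℝ) → 𝕜))
    (K : (Fin d → ℝ) → (Fin d → ℝ) → 𝕜) (hT : IsCZO T K) (M : ℝ≥0) :
    ∃ C : ℝ≥0, ∀ w σ : (Fin d → ℝ) → ℝ≥0, IsWeight w → IsWeight σ →
      (∀ (a : Fin d → ℝ) (l : ℝ), 0 < l → lux Φ₁ w (cube a l) * avg σ (cube a l) ≤ M) →
      (∀ (a : Fin d → ℝ) (l : ℝ), 0 < l → avg w (cube a l) * lux Φ₂ σ (cube a l) ≤ M) →
      ∀ f : (Fin d → ℝ) → 𝕜, AEStronglyMeasurable f volume → (∃ B : ℝ, ∀ x, ‖f x‖ ≤ B) →
        HasCompactSupport f →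
        (∃ g, IsValue T (fun x => ((w x : ℝ) : 𝕜) * f x) g) ∧
        ∀ g, IsValue T (fun x => ((w x : ℝ) : 𝕜) * f x) g → wnorm σ g ≤ C * wnorm w f := by
  obtain ⟨c₁, hc₁, hi₁⟩ := hB₁
  obtain ⟨c₂, hc₂, hi₂⟩ := hB₂
  obtain ⟨T', hT', hTT⟩ := hT.toSep
  obtain ⟨C, hC⟩ := Sep.mainMeas hd hΦ₁.toSep hΦ₂.toSep ⟨c₁, hc₁, hi₁.ne⟩ ⟨c₂, hc₂, hi₂.ne⟩ M
    hT'
  refine ⟨C + 1, ?_⟩
  intro w σ hw hσ hb₁ hb₂ f hf hB hcs
  -- measurable representatives
  have hw0 : AEMeasurable w volume := by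
    have := (LocallyIntegrable.aestronglyMeasurable hw).aemeasurable.real_toNNReal
    simpa using this
  have hσ0 : AEMeasurable σ volume := by
    have := (LocallyIntegrable.aestronglyMeasurable hσ).aemeasurable.real_toNNReal
    simpa using this
  obtain ⟨w', hw', hww⟩ := hw0
  obtain ⟨σ', hσ', hσσ⟩ := hσ0
  obtain ⟨f', hf', hff⟩ := hf
  have hcube : ∀ (a : Fin d → ℝ) (l : ℝ), Sep.cube a l = cube a l := fun a l => rfl
  have hwm : ∀ {u v : (Fin d → ℝ) → ℝ≥0}, u =ᵐ[volume] v → ∀ (a : Fin d → ℝ) (l : ℝ),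
      Sep.wm volume v (Sep.cube a l) = ∫⁻ x in cube a l, (u x : ℝ≥0∞) := by
    intro u v huv a l
    rw [wm_congr huv, hcube, withDensity_apply _ (cube_meas a l)]
  set h : (Fin d → ℝ) → 𝕜 := fun x => ((w' x : ℝ) : 𝕜) * f' x with hh
  have hhm : Measurable h :=
    (RCLike.continuous_ofReal.measurable.comp hw'.coe_nnreal_real).mul hf'.measurable
  have hhf : h =ᵐ[volume] fun x => ((w x : ℝ) : 𝕜) * f x := by
    filter_upwards [hww, hff] with x hx hx'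
    simp only [hh]
    rw [hx, hx']
  have hhfin : ∫⁻ x, ‖h x‖ₑ ≠ ∞ := by
    obtain ⟨B, hB⟩ := hB
    have h1 : ∫⁻ x, ‖h x‖ₑ ≤ ∫⁻ x in tsupport f, ENNReal.ofReal B * (w x : ℝ≥0∞) := by
      rw [← lintegral_indicator (isClosed_tsupport f).measurableSet]
      apply lintegral_mono_ae
      filter_upwards [hhf] with x hx
      rw [hx]
      by_cases h2 : x ∈ tsupport f
      · rw [Set.indicator_of_mem h2, enorm_mul, mul_comm]
        apply mul_le_mul'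
        · rw [← ofReal_norm]
          exact ENNReal.ofReal_le_ofReal (hB x)
        · rw [← ofReal_norm, RCLike.norm_ofReal, abs_of_nonneg (w x).coe_nonneg,
            ENNReal.ofReal_coe_nnreal]
      · rw [image_eq_zero_of_notMem_tsupport h2, mul_zero, enorm_zero]
        exact bot_le
    apply ne_of_lt
    refine lt_of_le_of_lt h1 ?_
    rw [lintegral_const_mul' _ _ ENNReal.ofReal_ne_top]
    exact ENNReal.mul_lt_top ENNReal.ofReal_lt_top (lin_fin hw hcs.isCompact)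
  have hlin : ∀ F : (Fin d → ℝ) → 𝕜, ∫⁻ x, ‖F x - ((w x : ℝ) : 𝕜) * f x‖ₑ =
      ∫⁻ x, ‖F x - h x‖ₑ := by
    intro F
    apply lintegral_congr_ae
    filter_upwards [hhf] with x hx
    rw [hx]
  obtain ⟨g, hg, hgF, hgb⟩ := hC w' σ' hw' hσ'
    (fun a l _ => by rw [hwm hww]; exact wd_fin hw a l)
    (fun a l _ => by rw [hwm hσσ]; exact wd_fin hσ a l)
    (fun a l hl => by
      rw [hwm hσσ, hcube, lux_congr hww, div_eq_mul_inv, mul_comm (∫⁻ x in cube a l, (σ x : ℝ≥0∞))]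
      exact hb₁ a l hl)
    (fun a l hl => by
      rw [hwm hww, hcube, lux_congr hσσ, div_eq_mul_inv, mul_comm (∫⁻ x in cube a l, (w x : ℝ≥0∞)),
        mul_comm]
      exact hb₂ a l hl)
    f' h hf'.measurable hhm (fun x => rfl) hhfin
  have hval : IsValue T (fun x => ((w x : ℝ) : 𝕜) * f x) g := by
    refine ⟨hg.aestronglyMeasurable, ?_⟩
    intro F hF2 hF1 hFl
    have h1 := hgF F hF2 (fun n => memLp_one_iff_integrable.2 (hF1 n))
      (by simpa only [hlin] using hFl)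
    exact h1.congr_left (fun n => hTT (F n) (hF2 n))
  refine ⟨⟨g, hval⟩, ?_⟩
  intro g₁ hg₁
  obtain ⟨H, hH2, hH1, hHl⟩ := Sep.exists_approx h hhm hhfin
  have hgg : g =ᵐ[volume] g₁ := by
    have e1 := hval.2 H hH2 (fun n => memLp_one_iff_integrable.1 (hH1 n))
      (by simpa only [hlin] using hHl)
    have e2 := hg₁.2 H hH2 (fun n => memLp_one_iff_integrable.1 (hH1 n))
      (by simpa only [hlin] using hHl)
    exact tendstoInMeasure_ae_unique e1 e2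
  rw [wm_congr hσσ, wm_congr hww] at hgb
  have hacσ : volume.withDensity (fun x => (σ x : ℝ≥0∞)) ≪ (volume : Measure (Fin d → ℝ)) :=
    withDensity_absolutelyContinuous _ _
  have hacw : volume.withDensity (fun x => (w x : ℝ≥0∞)) ≪ (volume : Measure (Fin d → ℝ)) :=
    withDensity_absolutelyContinuous _ _
  unfold wnorm
  rw [← eLpNorm_congr_ae (hacσ.ae_le hgg), eLpNorm_congr_ae (hacw.ae_le hff)]
  rw [← (ENNReal.pow_right_strictMono (two_ne_zero)).le_iff_le]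
  rw [mul_pow, sq_eLp, sq_eLp]
  refine hgb.trans (mul_le_mul' ?_ le_rfl)
  have h3 : C ≤ (C + 1) ^ 2 := by
    have : (C + 1) ^ 2 = C + (C ^ 2 + C + 1) := by ring
    rw [this]
    exact le_self_add
  exact_mod_cast h3

end Pool.Agent.Results.MP_93f72d_an.SeparatedBump
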